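import Pool.Agent.W996.MW.Stm2

/-!
A state with small overlap with each of `K` given states (project MW).
-/

open scoped ComplexOrder Matrix

namespace Pool.Agent.W346.MW

open Pool.Agent.W996.MW Finset

/-- signs -/
noncomputable def sg (b : Bool) : ℝ := if b then 1 else -1

theorem sg_sq (b : Bool) : sg b ^ 2 = 1 := by
  cases b <;> norm_num [sg]

theorem sum_exp {ι : Type} [Fintype ι] [DecidableEq ι] (a : ι → ℝ) (l : ℝ) :
    ∑ ε : ι → Bool, Real.exp (l * ∑ i, sg (ε i) * a i) ≤
      2 ^ Fintype.card ι * Real.exp (l ^ 2 * (∑ i, a i ^ 2) / 2) := by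
  have h1 : ∑ ε : ι → Bool, Real.exp (l * ∑ i, sg (ε i) * a i) =
      ∏ i, ∑ b : Bool, Real.exp (l * (sg b * a i)) := by
    rw [Finset.prod_univ_sum, Fintype.piFinset_univ]
    refine sum_congr rfl fun ε _ => ?_
    rw [mul_sum, Real.exp_sum]
  have h2 : ∀ i, ∑ b : Bool, Real.exp (l * (sg b * a i)) ≤
      2 * Real.exp (l ^ 2 * a i ^ 2 / 2) := by
    intro i
    have h3 : ∑ b : Bool, Real.exp (l * (sg b * a i)) = 2 * Real.cosh (l * a i) := by
      rw [Fintype.sum_bool, Real.cosh_eq]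
      simp only [sg, if_true, Bool.false_eq_true, if_false]
      rw [show l * (1 * a i) = l * a i by ring, show l * (-1 * a i) = -(l * a i) by ring]
      ring
    rw [h3]
    have h4 := Real.cosh_le_exp_half_sq (l * a i)
    rw [show (l * a i) ^ 2 / 2 = l ^ 2 * a i ^ 2 / 2 by ring] at h4
    linarith
  rw [h1]
  calc ∏ i, ∑ b : Bool, Real.exp (l * (sg b * a i))
      ≤ ∏ i : ι, 2 * Real.exp (l ^ 2 * a i ^ 2 / 2) := by
        refine prod_le_prod (fun i _ => ?_) (fun i _ => h2 i)
        exact sum_nonneg fun b _ => (Real.exp_pos _).le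
    _ = 2 ^ Fintype.card ι * Real.exp (l ^ 2 * (∑ i, a i ^ 2) / 2) := by
        rw [prod_mul_distrib, prod_const, card_univ, ← Real.exp_sum]
        congr 2
        rw [mul_sum, sum_div]

/-- the sign vectors with a large sum -/
noncomputable def bad {ι : Type} [Fintype ι] [DecidableEq ι] (a : ι → ℝ) (t : ℝ) :
    Finset (ι → Bool) :=
  univ.filter fun ε => (∑ i, a i ^ 2) * t ^ 2 < (∑ i, sg (ε i) * a i) ^ 2

theorem card_bad {ι : Type} [Fintype ι] [DecidableEq ι] (a : ι → ℝ) {t : ℝ} (ht : 0 ≤ t) :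
    ((bad a t).card : ℝ) ≤ 2 * Real.exp (-(t ^ 2 / 2)) * 2 ^ Fintype.card ι := by
  have hv0 : 0 ≤ ∑ i, a i ^ 2 := sum_nonneg fun i _ => sq_nonneg _
  have hR : 0 ≤ 2 * Real.exp (-(t ^ 2 / 2)) * 2 ^ Fintype.card ι := by positivity
  rcases hv0.eq_or_lt with hv | hv
  · have h1 : bad a t = ∅ := by
      rw [bad, filter_eq_empty_iff]
      intro ε _
      have h2 : ∀ i, a i = 0 := by
        intro i
        have h3 := (sum_eq_zero_iff_of_nonneg (fun i _ => sq_nonneg (a i))).1 hv.symm i
          (mem_univ i)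
        exact pow_eq_zero_iff two_ne_zero |>.1 h3
      simp [h2]
    rw [h1, card_empty, Nat.cast_zero]
    exact hR
  · set v := ∑ i, a i ^ 2 with hvdef
    have hsv : 0 < Real.sqrt v := Real.sqrt_pos.2 hv
    have hsq : Real.sqrt v ^ 2 = v := Real.sq_sqrt hv.le
    set l := t / Real.sqrt v with hl
    have hl0 : 0 ≤ l := div_nonneg ht hsv.le
    have hlv : l ^ 2 * v = t ^ 2 := by
      rw [hl, div_pow, hsq]
      field_simp
    have h1 : ∀ ε ∈ bad a t, Real.exp (t ^ 2) ≤
        Real.exp (l * ∑ i, sg (ε i) * a i) + Real.exp ((-l) * ∑ i, sg (ε i) * a i) := by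
      intro ε hε
      have h2 : v * t ^ 2 < (∑ i, sg (ε i) * a i) ^ 2 := (mem_filter.1 hε).2
      set S := ∑ i, sg (ε i) * a i with hS
      have h3 : t * Real.sqrt v ≤ |S| := by
        have h4 : (t * Real.sqrt v) ^ 2 ≤ |S| ^ 2 := by
          rw [mul_pow, hsq, sq_abs]
          linarith
        exact (pow_le_pow_iff_left₀ (by positivity) (abs_nonneg _) two_ne_zero).1 h4
      have h5 : t ^ 2 ≤ l * |S| := by
        calc t ^ 2 = l * (t * Real.sqrt v) := by
              rw [hl]
              field_simp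
          _ ≤ l * |S| := by gcongr
      rcases le_or_gt 0 S with h6 | h6
      · rw [abs_of_nonneg h6] at h5
        have := Real.exp_le_exp.2 h5
        have h7 := Real.exp_pos ((-l) * S)
        linarith
      · rw [abs_of_neg h6] at h5
        have h8 : t ^ 2 ≤ (-l) * S := by linarith
        have := Real.exp_le_exp.2 h8
        have h7 := Real.exp_pos (l * S)
        linarith
    have h2 : ((bad a t).card : ℝ) * Real.exp (t ^ 2) ≤
        2 * (2 ^ Fintype.card ι * Real.exp (t ^ 2 / 2)) := by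
      calc ((bad a t).card : ℝ) * Real.exp (t ^ 2) = ∑ _ε ∈ bad a t, Real.exp (t ^ 2) := by
            rw [sum_const, nsmul_eq_mul]
        _ ≤ ∑ ε ∈ bad a t, (Real.exp (l * ∑ i, sg (ε i) * a i) +
              Real.exp ((-l) * ∑ i, sg (ε i) * a i)) := sum_le_sum h1
        _ ≤ ∑ ε : ι → Bool, (Real.exp (l * ∑ i, sg (ε i) * a i) +
              Real.exp ((-l) * ∑ i, sg (ε i) * a i)) := by
            refine sum_le_sum_of_subset_of_nonneg (subset_univ _) fun ε _ _ => ?_
            have := Real.exp_pos (l * ∑ i, sg (ε i) * a i)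
            have := Real.exp_pos ((-l) * ∑ i, sg (ε i) * a i)
            linarith
        _ ≤ 2 ^ Fintype.card ι * Real.exp (l ^ 2 * v / 2) +
              2 ^ Fintype.card ι * Real.exp ((-l) ^ 2 * v / 2) := by
            rw [sum_add_distrib]
            exact add_le_add (sum_exp a l) (sum_exp a (-l))
        _ = 2 * (2 ^ Fintype.card ι * Real.exp (t ^ 2 / 2)) := by
            rw [neg_sq, hlv]
            ring
    have h3 : Real.exp (t ^ 2) = Real.exp (t ^ 2 / 2) * Real.exp (t ^ 2 / 2) := by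
      rw [← Real.exp_add]
      congr 1
      ring
    have h4 : 0 < Real.exp (t ^ 2 / 2) := Real.exp_pos _
    rw [h3, ← mul_assoc, ← mul_assoc] at h2
    have h5 := le_of_mul_le_mul_right h2 h4
    rw [Real.exp_neg]
    calc ((bad a t).card : ℝ) = (bad a t).card * Real.exp (t ^ 2 / 2) *
          (Real.exp (t ^ 2 / 2))⁻¹ := by
          field_simp
      _ ≤ 2 * 2 ^ Fintype.card ι * (Real.exp (t ^ 2 / 2))⁻¹ := by
          gcongr
      _ = 2 * (Real.exp (t ^ 2 / 2))⁻¹ * 2 ^ Fintype.card ι := by ring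

theorem fam : S_FAM := by
  intro ι _ _ _ K φ hφ
  have hK : (0 : ℝ) ≤ K := Nat.cast_nonneg K
  have hlog : 0 ≤ Real.log (4 * K + 1) := Real.log_nonneg (by linarith)
  set t := Real.sqrt (2 * Real.log (4 * K + 1)) with ht
  have ht0 : 0 ≤ t := Real.sqrt_nonneg _
  have ht2 : t ^ 2 = 2 * Real.log (4 * K + 1) := Real.sq_sqrt (by positivity)
  have hexp : Real.exp (-(t ^ 2 / 2)) = (4 * (K : ℝ) + 1)⁻¹ := by
    rw [ht2, show -(2 * Real.log (4 * (K : ℝ) + 1) / 2) = -Real.log (4 * K + 1) by ring,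
      Real.exp_neg, Real.exp_log (by positivity)]
  have hd : 0 < Fintype.card ι := Fintype.card_pos
  have hdR : (0 : ℝ) < Fintype.card ι := Nat.cast_pos.2 hd
  -- a good sign vector
  have hgood : ∃ ε : ι → Bool, ∀ j, ε ∉ bad (fun i => (φ j i).re) t ∧
      ε ∉ bad (fun i => (φ j i).im) t := by
    by_contra hcon
    push Not at hcon
    classical
    have h1 : (univ : Finset (ι → Bool)) ⊆ univ.biUnion fun j : Fin K =>
        bad (fun i => (φ j i).re) t ∪ bad (fun i => (φ j i).im) t := by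
      intro ε _
      obtain ⟨j, hj⟩ := hcon ε
      rw [mem_biUnion]
      refine ⟨j, mem_univ _, ?_⟩
      rw [mem_union]
      by_cases h : ε ∈ bad (fun i => (φ j i).re) t
      · exact Or.inl h
      · exact Or.inr (hj h)
    have h2 : (2 : ℝ) ^ Fintype.card ι ≤ ∑ _j : Fin K,
        4 * (4 * (K : ℝ) + 1)⁻¹ * 2 ^ Fintype.card ι := by
      calc (2 : ℝ) ^ Fintype.card ι = ((univ : Finset (ι → Bool)).card : ℝ) := by
            rw [card_univ, Fintype.card_fun, Fintype.card_bool]
            push_cast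
            rfl
        _ ≤ ((univ.biUnion fun j : Fin K =>
              bad (fun i => (φ j i).re) t ∪ bad (fun i => (φ j i).im) t).card : ℝ) := by
            exact_mod_cast card_le_card h1
        _ ≤ ∑ j : Fin K, ((bad (fun i => (φ j i).re) t ∪
              bad (fun i => (φ j i).im) t).card : ℝ) := by
            exact_mod_cast card_biUnion_le
        _ ≤ ∑ _j : Fin K, 4 * (4 * (K : ℝ) + 1)⁻¹ * 2 ^ Fintype.card ι := by
            refine sum_le_sum fun j _ => ?_
            have h3 := card_bad (fun i => (φ j i).re) ht0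
            have h4 := card_bad (fun i => (φ j i).im) ht0
            have h5 : ((bad (fun i => (φ j i).re) t ∪ bad (fun i => (φ j i).im) t).card : ℝ) ≤
                (bad (fun i => (φ j i).re) t).card + (bad (fun i => (φ j i).im) t).card := by
              exact_mod_cast card_union_le _ _
            rw [hexp] at h3 h4
            linarith
    rw [sum_const, card_univ, Fintype.card_fin, nsmul_eq_mul] at h2
    have hp : (0 : ℝ) < 2 ^ Fintype.card ι := by positivity
    have h3 : (2 : ℝ) ^ Fintype.card ι * (4 * K + 1) ≤ 4 * K * 2 ^ Fintype.card ι := by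
      have h4 : (0 : ℝ) < 4 * K + 1 := by positivity
      calc (2 : ℝ) ^ Fintype.card ι * (4 * K + 1)
          ≤ (K * (4 * (4 * (K : ℝ) + 1)⁻¹ * 2 ^ Fintype.card ι)) * (4 * K + 1) := by gcongr
        _ = 4 * K * 2 ^ Fintype.card ι := by
            field_simp
    nlinarith
  obtain ⟨ε, hε⟩ := hgood
  have hsd : (0 : ℝ) < Real.sqrt (Fintype.card ι) := Real.sqrt_pos.2 hdR
  have hsd2 : Real.sqrt (Fintype.card ι) ^ 2 = Fintype.card ι := Real.sq_sqrt hdR.le
  refine ⟨fun i => ((sg (ε i) / Real.sqrt (Fintype.card ι) : ℝ) : ℂ), ?_, ?_⟩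
  · rw [normSq]
    have h1 : ∀ i, ‖((sg (ε i) / Real.sqrt (Fintype.card ι) : ℝ) : ℂ)‖ ^ 2 =
        1 / Fintype.card ι := by
      intro i
      rw [Complex.norm_real, Real.norm_eq_abs, sq_abs, div_pow, sg_sq, hsd2]
    simp only [h1]
    rw [sum_const, card_univ, nsmul_eq_mul]
    field_simp
  · intro j
    obtain ⟨hX, hY⟩ := hε j
    have hX' : (∑ i, sg (ε i) * (φ j i).re) ^ 2 ≤ (∑ i, (φ j i).re ^ 2) * t ^ 2 := by
      by_contra h
      push Not at h
      exact hX (mem_filter.2 ⟨mem_univ _, h⟩)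
    have hY' : (∑ i, sg (ε i) * (φ j i).im) ^ 2 ≤ (∑ i, (φ j i).im ^ 2) * t ^ 2 := by
      by_contra h
      push Not at h
      exact hY (mem_filter.2 ⟨mem_univ _, h⟩)
    have h1 : ‖star (φ j) ⬝ᵥ fun i => ((sg (ε i) / Real.sqrt (Fintype.card ι) : ℝ) : ℂ)‖ ^ 2 =
        ((∑ i, sg (ε i) * (φ j i).re) ^ 2 + (∑ i, sg (ε i) * (φ j i).im) ^ 2) /
          Fintype.card ι := by
      rw [← Complex.normSq_eq_norm_sq, Complex.normSq_apply]
      have h2 : (star (φ j) ⬝ᵥ fun i => ((sg (ε i) / Real.sqrt (Fintype.card ι) : ℝ) : ℂ)).re =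
          (∑ i, sg (ε i) * (φ j i).re) / Real.sqrt (Fintype.card ι) := by
        rw [dotProduct, Complex.re_sum, sum_div]
        refine sum_congr rfl fun i _ => ?_
        rw [Pi.star_apply, Complex.mul_re, Complex.ofReal_re, Complex.ofReal_im, mul_zero,
          sub_zero, Complex.star_def, Complex.conj_re]
        ring
      have h3 : (star (φ j) ⬝ᵥ fun i => ((sg (ε i) / Real.sqrt (Fintype.card ι) : ℝ) : ℂ)).im =
          -(∑ i, sg (ε i) * (φ j i).im) / Real.sqrt (Fintype.card ι) := by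
        rw [dotProduct, Complex.im_sum, neg_div, sum_div, ← sum_neg_distrib]
        refine sum_congr rfl fun i _ => ?_
        rw [Pi.star_apply, Complex.mul_im, Complex.ofReal_re, Complex.ofReal_im, mul_zero,
          zero_add, Complex.star_def, Complex.conj_im]
        ring
      rw [h2, h3, div_mul_div_comm, div_mul_div_comm, Real.mul_self_sqrt hdR.le]
      ring
    rw [h1, ← ht2]
    have h2 : (∑ i, (φ j i).re ^ 2) + ∑ i, (φ j i).im ^ 2 = 1 := by
      rw [← hφ j, normSq, ← sum_add_distrib]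
      refine sum_congr rfl fun i _ => ?_
      rw [← Complex.normSq_eq_norm_sq, Complex.normSq_apply]
      ring
    have h3 : (∑ i, sg (ε i) * (φ j i).re) ^ 2 + (∑ i, sg (ε i) * (φ j i).im) ^ 2 ≤ t ^ 2 := by
      calc (∑ i, sg (ε i) * (φ j i).re) ^ 2 + (∑ i, sg (ε i) * (φ j i).im) ^ 2
          ≤ (∑ i, (φ j i).re ^ 2) * t ^ 2 + (∑ i, (φ j i).im ^ 2) * t ^ 2 :=
            add_le_add hX' hY'
        _ = t ^ 2 := by rw [← add_mul, h2, one_mul]
    gcongr

end Pool.Agent.W346.MW
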